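import Pool.Agent.H17.DR.Front
import Pool.Graph.R_pool_sql_team_seeded_3dad9d7b.Results.MP_1d885e_al.SmallExtensions

/-!
# Noncommutative centrally finite subdivision rings from a conjugate of degree two

`D` is a division ring, algebraic over its centre `F`, and `a`, `b` are commuting elements. If `b`
has over `K = F(a)` two different conjugates `β`, `γ` (in some field) such that `γ` has degree at
most two over `K(β)`, then `D` contains a noncommutative centrally finite subdivision ring.
-/

set_option autoImplicit false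
set_option linter.unusedVariables false

namespace Pool.Agent.Results.MP_1d885e_al.QuadraticConjugate

open Pool.Agent.NH80.DR Polynomial
open Pool.Agent.Results.MP_1d885e_al.SmallExtensions (Fa_cz phi phi_inj phi_surj mem_Fa tr)

/-- the subfield generated by the centre and `a` -/
def Fa {D : Type} [DivisionRing D] (a : D) : Subfield D :=
  Subfield.closure ((Subring.center D : Set D) ∪ {a})

theorem Fa_eq {D : Type} [DivisionRing D] (a : D) :
    Fa a = Pool.Agent.Results.MP_1d885e_al.SmallExtensions.Fa a := rfl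

/-- **Theorem.** -/
theorem result (D : Type) [DivisionRing D]
    (halg : ∀ x : D, ∃ p : Polynomial (Subring.center D),
      p ≠ 0 ∧ Polynomial.eval₂ (Subring.center D).subtype x p = 0)
    (a b : D) (hab : a * b = b * a)
    (Ω : Type) [Field Ω] (i : Fa a →+* Ω) (β γ : Ω) (hne : β ≠ γ)
    (hβ : ∀ p : Polynomial (Fa a), p.eval₂ (Fa a).subtype b = 0 → p.eval₂ i β = 0)
    (hγ : ∀ p : Polynomial (Fa a), p.eval₂ (Fa a).subtype b = 0 → p.eval₂ i γ = 0)
    (hdeg : ∃ T ∈ Subfield.closure (Set.range i ∪ {β}),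
      ∃ N ∈ Subfield.closure (Set.range i ∪ {β}), γ ^ 2 = T * γ + N) :
    ∃ K : Subfield D,
      (∃ x ∈ K, ∃ y ∈ K, x * y ≠ y * x) ∧
      ∃ s : Finset D, (∀ t ∈ s, t ∈ K) ∧
        ∀ x ∈ K, ∃ c : D → D,
          (∀ t ∈ s, c t ∈ K ∧ ∀ y ∈ K, c t * y = y * c t) ∧
          x = ∑ t ∈ s, c t * t := by
  have hD : AC D := by
    intro x
    obtain ⟨p, hp, hpx⟩ := halg x
    exact isAlgebraic_iff_isIntegral.1 ⟨p, hp, hpx⟩
  have hE : AC (cz a) := ac_of_sub (cz a) (cz_center a) hD
  have hbE : b ∈ cz a := hab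
  refine pf_of_sub (cz a) ?_
  obtain ⟨m0, hm0⟩ := Polynomial.map_surjective (phi a) (phi_surj hD a)
    (minpoly (Subring.center (cz a)) (⟨b, hbE⟩ : cz a))
  have hmb : m0.eval₂ (Fa a).subtype b = 0 := by
    have h1 := tr a m0 ⟨b, hbE⟩
    rw [hm0, minpoly.aeval] at h1
    exact h1.symm
  set e : Fa a ≃+* Subring.center (cz a) :=
    RingEquiv.ofBijective (phi a) ⟨phi_inj a, phi_surj hD a⟩ with he
  set j : Subring.center (cz a) →+* Ω := i.comp (e.symm : Subring.center (cz a) →+* Fa a) with hj
  have hjphi : ∀ z, j (phi a z) = i z := by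
    intro z
    show i (e.symm (e z)) = i z
    rw [RingEquiv.symm_apply_apply]
  letI : Algebra (Subring.center (cz a)) Ω := j.toAlgebra
  have hroot : ∀ x : Ω, m0.eval₂ i x = 0 →
      aeval x (minpoly (Subring.center (cz a)) (⟨b, hbE⟩ : cz a)) = 0 := by
    intro x hx
    rw [← hm0, aeval_def, eval₂_map]
    have h1 : (algebraMap (Subring.center (cz a)) Ω).comp (phi a) = i := RingHom.ext hjphi
    rw [h1]
    exact hx
  have hβr := hroot β (hβ m0 hmb)
  have hγr := hroot γ (hγ m0 hmb)
  have hβi : IsIntegral (Subring.center (cz a)) β :=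
    ⟨_, minpoly.monic (hE ⟨b, hbE⟩), hβr⟩
  have hmem : ∀ x ∈ Subfield.closure (Set.range i ∪ {β}),
      x ∈ Algebra.adjoin (Subring.center (cz a)) {β} := by
    intro x hx
    refine Subfield.closure_induction (p := fun x _ => x ∈ Algebra.adjoin
      (Subring.center (cz a)) {β}) ?_ ?_ ?_ ?_ ?_ ?_ hx
    · rintro y (hy | hy)
      · obtain ⟨z, rfl⟩ := hy
        rw [← hjphi z]
        exact Subalgebra.algebraMap_mem _ (phi a z)
      · rw [Set.mem_singleton_iff.1 hy]
        exact Algebra.self_mem_adjoin_singleton _ β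
    · exact Subalgebra.one_mem _
    · rintro y z _ _ hy hz
      exact Subalgebra.add_mem _ hy hz
    · rintro y _ hy
      exact Subalgebra.neg_mem _ hy
    · rintro y _ hy
      exact inv_mem _ hβi.fg_adjoin_singleton hy
    · rintro y z _ _ hy hz
      exact Subalgebra.mul_mem _ hy hz
  obtain ⟨T, hT, N, hN, hq⟩ := hdeg
  exact Pool.Agent.H17.DR.front hE (⟨b, hbE⟩ : cz a) β γ hβr hγr hne.symm T N (hmem T hT)
    (hmem N hN) (by rw [← pow_two, hq])

end Pool.Agent.Results.MP_1d885e_al.QuadraticConjugate
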